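import Pool.Agent.Helper9.VI.Defs

/-!
# Abstract systems

`Pre` collects the C*-algebras `A n`, the evaluations `ev n : A n → M_{J n}(ℂ)`, the embeddings
`α n i : A n → A (n+1)` and `β n t : M_{J n}(ℂ) → A (n+1)` onto mutually orthogonal corners.
The connecting map is `phi n a = ∑ i, α n i a + ∑ t, β n t (ev n a)`.
-/

namespace Pool.Agent.Helper9.VI

open Filter Topology
open scoped ComplexOrder ENNReal NNReal

noncomputable section

/-- complex square matrices as a C*-algebra -/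
abbrev Mx (J : Type) : Type := CStarMatrix J J ℂ

/-- the (unnormalised) trace -/
def Mx.tr {J : Type} [Fintype J] (B : Mx J) : ℂ := ∑ j, B j j

structure Pre where
  A : ℕ → Type
  [csa : ∀ n, CStarAlgebra (A n)]
  J : ℕ → Type
  [fin : ∀ n, Fintype (J n)]
  [dec : ∀ n, DecidableEq (J n)]
  [ne : ∀ n, Nonempty (J n)]
  c : ℕ → ℕ
  c_pos : ∀ n, 0 < c n
  ev : ∀ n, A n →⋆ₐ[ℂ] Mx (J n)
  α : ∀ n, Fin (c n) → (A n →⋆ₙₐ[ℂ] A (n + 1))
  β : ∀ n, Option (Fin (c n)) → (Mx (J n) →⋆ₙₐ[ℂ] A (n + 1))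
  αα : ∀ n i j, i ≠ j → ∀ a b, α n i a * α n j b = 0
  αβ : ∀ n i t a B, α n i a * β n t B = 0
  βα : ∀ n i t a B, β n t B * α n i a = 0
  ββ : ∀ n t s, t ≠ s → ∀ B B', β n t B * β n s B' = 0
  sum_one : ∀ n, ∑ i, α n i 1 + ∑ t, β n t 1 = 1
  norm_α : ∀ n i a, ‖α n i a‖ = ‖a‖

attribute [instance] Pre.csa Pre.fin Pre.dec Pre.ne

namespace Pre

variable (S : Pre)

/-- the underlying function of the connecting map -/
def phiFun (n : ℕ) (a : S.A n) : S.A (n + 1) := ∑ i, S.α n i a + ∑ t, S.β n t (S.ev n a)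

theorem phiFun_one (n : ℕ) : S.phiFun n 1 = 1 := by
  simp only [phiFun, map_one]
  exact S.sum_one n

theorem phiFun_mul (n : ℕ) (a b : S.A n) : S.phiFun n (a * b) = S.phiFun n a * S.phiFun n b := by
  simp only [phiFun, map_mul]
  rw [add_mul, mul_add, mul_add, Finset.sum_mul_sum, Finset.sum_mul_sum, Finset.sum_mul_sum,
    Finset.sum_mul_sum]
  have h1 : ∀ i : Fin (S.c n), ∑ j, S.α n i a * S.α n j b = S.α n i a * S.α n i b := fun i =>
    Finset.sum_eq_single i (fun j _ hj => S.αα n i j (Ne.symm hj) a b) (by simp)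
  have h2 : ∀ t : Option (Fin (S.c n)), ∑ s, S.β n t (S.ev n a) * S.β n s (S.ev n b) =
      S.β n t (S.ev n a) * S.β n t (S.ev n b) := fun t =>
    Finset.sum_eq_single t (fun s _ hs => S.ββ n t s (Ne.symm hs) _ _) (by simp)
  simp only [h1, h2, S.αβ, S.βα, Finset.sum_const_zero, add_zero, zero_add]

/-- the connecting map -/
def phi (n : ℕ) : S.A n →⋆ₐ[ℂ] S.A (n + 1) where
  toFun := S.phiFun n
  map_one' := S.phiFun_one n
  map_mul' := S.phiFun_mul n
  map_zero' := by simp [phiFun]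
  map_add' a b := by
    simp only [phiFun, map_add, Finset.sum_add_distrib]; abel
  commutes' r := by
    have : algebraMap ℂ (S.A n) r = r • (1 : S.A n) := Algebra.algebraMap_eq_smul_one r
    rw [this, Algebra.algebraMap_eq_smul_one]
    change S.phiFun n (r • 1) = _
    have h : S.phiFun n (r • 1) = r • S.phiFun n 1 := by
      simp only [phiFun, map_smul, Finset.smul_sum, smul_add]
    rw [h, S.phiFun_one]
  map_star' a := by
    simp only [phiFun, map_star, star_add, star_sum]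

theorem phi_apply (n : ℕ) (a : S.A n) :
    S.phi n a = ∑ i, S.α n i a + ∑ t, S.β n t (S.ev n a) := rfl

/-- the composed connecting map `A n → A (n + k)` -/
def iter (n : ℕ) : ∀ k, S.A n →⋆ₐ[ℂ] S.A (n + k)
  | 0 => StarAlgHom.id ℂ _
  | k + 1 => (S.phi (n + k)).comp (iter n k)

/-- the composed connecting map `A 0 → A n` -/
def up : ∀ n, S.A 0 →⋆ₐ[ℂ] S.A n
  | 0 => StarAlgHom.id ℂ _
  | n + 1 => (S.phi n).comp (up n)

end Pre

/-- A system with all the properties used in the proof. -/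
structure Sys extends Pre where
  /-- basic projections -/
  basic : ∀ n, Set (A n)
  basic_ne : ∀ n, (basic n).Nonempty
  basic_proj : ∀ n, ∀ e ∈ basic n, IsStarProjection e
  basic_equiv : ∀ n, ∀ e ∈ basic n, ∀ e' ∈ basic n, ∃ g : A n, star g * g = e ∧ g * star g = e'
  basic_α : ∀ n i, ∀ e ∈ basic n, α n i e ∈ basic (n + 1)
  basic_β : ∀ n (E : Mx (J n)), IsStarProjection E → E.tr = 1 → β n none E ∈ basic (n + 1)
  basic_full : ∀ n, ∀ e ∈ basic n, ∃ (k : ℕ) (r : Fin k → A n), ∑ i, star (r i) * e * r i = 1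
  norm_ev : ∀ n (a : A n) (ε : ℝ), 0 < ε → ∃ k, ‖a‖ - ε < ‖ev (n + k) (toPre.iter n k a)‖
  trace_β : ∀ n (σ : A (n + 1) →ₗ[ℂ] ℂ), (∀ a b, σ (a * b) = σ (b * a)) → σ 1 = 1 →
    ∀ t B, σ (β n t B) = B.tr / (Fintype.card (J n) * (2 * c n + 1))
  /-- the diagonal units of `A 0` -/
  d : Fin 3 → A 0
  d_proj : ∀ i, IsStarProjection (d i)
  d_sum : d 0 + d 1 + d 2 = 1
  /-- a commutative subalgebra of `A 0` -/
  D : StarSubalgebra ℂ (A 0)
  D_comm : ∀ x ∈ D, ∀ y ∈ D, x * y = y * x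
  d_equiv : ∀ i, ∃ (k : ℕ) (u : Fin k → A 0), (∀ l, star (u l) * u l ∈ D) ∧
    (∀ l, u l * star (u l) ∈ D) ∧ ∑ l, star (u l) * u l = d 0 ∧ ∑ l, u l * star (u l) = d i
  nocomp : ∀ n (v : A n), ¬ ‖v * toPre.up n (d 1 + d 2) * star v - toPre.up n (d 0)‖ < 1

/-- `B` is the limit of the system `S`. -/
structure Lim (S : Sys) (B : Type) [CStarAlgebra B] where
  ι : ∀ n, S.A n →⋆ₐ[ℂ] B
  ι_phi : ∀ n a, ι (n + 1) (S.phi n a) = ι n a
  norm_ι : ∀ n a, ‖ι n a‖ = ‖a‖
  dense : Dense (⋃ n, Set.range (ι n))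

end

end Pool.Agent.Helper9.VI
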