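import Mathlib

/-!
# Definitions for MP_c20ff4_an

Tracial states, 2-quasitraces, Cuntz subequivalence and the radius of comparison of a unital
C*-algebra.
-/

namespace Pool.Agent.Helper9.VI

open Filter Topology
open scoped ComplexOrder ENNReal NNReal

noncomputable section

/-- The set of tracial states of a unital C*-algebra `A`, a subset of the dual with the weak-*
topology. -/
def tracialStates (A : Type) [CStarAlgebra A] : Set (WeakDual ℂ A) :=
  {f | (∀ a : A, 0 ≤ f (star a * a)) ∧ f 1 = 1 ∧ ∀ a b : A, f (a * b) = f (b * a)}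

/-- `A` is stably finite: in every matrix algebra `M_n(A)` each isometry is a unitary. -/
def StablyFinite (A : Type) [CStarAlgebra A] : Prop :=
  ∀ (n : ℕ) (x : Matrix (Fin n) (Fin n) A), star x * x = 1 → x * star x = 1

/-- `A` has stable rank one: the invertible elements are dense. -/
def StableRankOne (A : Type) [CStarAlgebra A] : Prop := Dense {a : A | IsUnit a}

/-- `t` is a quasitrace on the C*-algebra `B`: `t (x* x) = t (x x*) ≥ 0`,
`t (a + i b) = t a + i t b` for self-adjoint `a`, `b`, `t` is linear on commutative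
*-subalgebras, and `t` is lower semicontinuous on positive elements. -/
structure IsQuasitrace {B : Type} [CStarAlgebra B] (t : B → ℂ) : Prop where
  nonneg : ∀ x, 0 ≤ t (star x * x)
  tracial : ∀ x, t (star x * x) = t (x * star x)
  add_I : ∀ a b, IsSelfAdjoint a → IsSelfAdjoint b →
    t (a + Complex.I • b) = t a + Complex.I * t b
  linear : ∀ S : StarSubalgebra ℂ B, (∀ x ∈ S, ∀ y ∈ S, x * y = y * x) →
    ∀ x ∈ S, ∀ y ∈ S, ∀ c : ℂ, t (x + y) = t x + t y ∧ t (c • x) = c * t x
  lsc : LowerSemicontinuousOn (fun x => (t x).re) {x | ∃ y, x = star y * y}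

/-- `d_t(b) = lim t(b^{1/k})` for a positive element `b` of a C*-algebra and a quasitrace `t`. -/
def dimFun {B : Type} [CStarAlgebra B] [PartialOrder B] [StarOrderedRing B] (t : B → ℂ) (b : B) :
    ℝ :=
  limUnder atTop (fun k : ℕ => (t (b ^ (1 / (k + 1) : ℝ≥0))).re)

variable (A : Type) [CStarAlgebra A] [PartialOrder A] [StarOrderedRing A]

/-- A normalized 2-quasitrace on `A`, given together with its extensions to the matrix algebras
`M_n(A)` (such extensions exist and are unique for every 2-quasitrace, by Blackadar and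
Handelman). -/
structure QuasiTrace where
  /-- the extension to `M_n(A)` -/
  t : ∀ n : ℕ, CStarMatrix (Fin n) (Fin n) A → ℂ
  isQ : ∀ n, IsQuasitrace (t n)
  corner : ∀ (n : ℕ) (a : A),
    t (n + 1) (fun i j => if i = 0 ∧ j = 0 then a else 0) = t 1 (fun _ _ => a)
  normalized : t 1 1 = 1

variable {A}

/-- `d_τ(a) = lim τ(a^{1/k})` for a positive `a` in `M_n(A)`. -/
def QuasiTrace.dim (τ : QuasiTrace A) {n : ℕ} (a : CStarMatrix (Fin n) (Fin n) A) : ℝ :=
  dimFun (τ.t n) a

/-- Cuntz subequivalence `a ≾ b` of `a ∈ M_n(A)` and `b ∈ M_m(A)`: there are `v_k` with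
`v_k b v_k* → a`. -/
def CuntzLE {n m : ℕ} (a : CStarMatrix (Fin n) (Fin n) A) (b : CStarMatrix (Fin m) (Fin m) A) :
    Prop :=
  ∃ v : ℕ → CStarMatrix (Fin n) (Fin m) A,
    Tendsto (fun k => v k * b * (v k).conjTranspose) atTop (𝓝 a)

variable (A)

/-- `A` has the comparison property with the number `r`: whenever `a, b` are positive in
`M_∞(A)` with `d_τ(a) + r < d_τ(b)` for every normalized 2-quasitrace `τ`, then `a ≾ b`. -/
def HasComparison (r : ℝ≥0) : Prop :=
  ∀ (n m : ℕ) (a : CStarMatrix (Fin n) (Fin n) A) (b : CStarMatrix (Fin m) (Fin m) A),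
    0 ≤ a → 0 ≤ b → (∀ τ : QuasiTrace A, τ.dim a + r < τ.dim b) → CuntzLE a b

/-- The radius of comparison: the infimum of all `r ≥ 0` such that `A` has comparison with `r`
(`∞` if there is none). -/
def radiusOfComparison : ℝ≥0∞ := ⨅ r ∈ {r : ℝ≥0 | HasComparison A r}, (r : ℝ≥0∞)

end

end Pool.Agent.Helper9.VI
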